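import Mathlib
import Pool.Agent.N909.CM.Lem
import Pool.Agent.H440R2.LFL2

set_option autoImplicit false
set_option linter.unusedSectionVars false

/-! # Cycles of logarithmic length have a bounded minimum -/

open Filter Set
open scoped Topology

namespace Pool.Agent.N909.CY

open Pool.Agent.N909.CMT

/-- the closing condition of a cycle above `H` -/
lemma closing (f : ℕ → ℕ) (hf : ∀ n, f n = (3 * n + 1) / 2 ∨ f n = n / 2) {H l x : ℕ} (hH : 2 ≤ H)
    (h : ∀ i < l, H < f^[i] x) (hx : 1 ≤ x) (hret : f^[l] x = x) :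
    ∃ u ≤ l, |(u : ℝ) * Real.log 3 - l * Real.log 2| ≤ 2 * l / H := by
  obtain ⟨u, hu, h1, h2⟩ := path_bd f hf (by omega : 1 ≤ H) l x h
  rw [hret] at h1 h2
  have hx0 : (0 : ℝ) < x := by exact_mod_cast hx
  have hH0 : (2 : ℝ) ≤ H := by exact_mod_cast hH
  have ha : (0 : ℝ) < 1 - 1 / H := by
    rw [sub_pos, div_lt_one (by linarith)]
    linarith
  have h3 : (3 : ℝ) ^ u * (1 - 1 / H) ^ l ≤ 2 ^ l := by
    have : (3 : ℝ) ^ u * (1 - 1 / H) ^ l * x ≤ 2 ^ l * x := by
      calc (3 : ℝ) ^ u * (1 - 1 / H) ^ l * x = (3 : ℝ) ^ u * x * (1 - 1 / H) ^ l := by ring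
        _ ≤ _ := h1
    exact le_of_mul_le_mul_right this hx0
  have h4 : (2 : ℝ) ^ l ≤ 3 ^ u * (1 + 1 / (3 * H)) ^ l := by
    have : (2 : ℝ) ^ l * x ≤ 3 ^ u * (1 + 1 / (3 * H)) ^ l * x := by
      calc (2 : ℝ) ^ l * x ≤ (3 : ℝ) ^ u * x * (1 + 1 / (3 * H)) ^ l := h2
        _ = _ := by ring
    exact le_of_mul_le_mul_right this hx0
  have h5 := Real.log_le_log (by positivity) h3
  have h6 := Real.log_le_log (by positivity) h4
  rw [Real.log_mul (by positivity) (by positivity), Real.log_pow, Real.log_pow, Real.log_pow] at h5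
  rw [Real.log_mul (by positivity) (by positivity), Real.log_pow, Real.log_pow, Real.log_pow] at h6
  have h7 : -(2 / (H : ℝ)) ≤ Real.log (1 - 1 / H) := by
    have := Real.one_sub_inv_le_log_of_pos ha
    refine le_trans ?_ this
    have e : 1 - (1 - 1 / (H : ℝ))⁻¹ = -(1 / (H - 1)) := by
      have : (H : ℝ) - 1 ≠ 0 := by linarith
      have h8 : (H : ℝ) ≠ 0 := by linarith
      rw [show (1 : ℝ) - 1 / H = (H - 1) / H by field_simp, inv_div]
      field_simp
      ring
    rw [e, neg_le_neg_iff, div_le_div_iff₀ (by linarith) (by linarith)]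
    linarith
  have h8 : Real.log (1 + 1 / (3 * H)) ≤ 2 / (H : ℝ) := by
    have := Real.log_le_sub_one_of_pos (show (0 : ℝ) < 1 + 1 / (3 * H) by positivity)
    refine this.trans ?_
    rw [add_sub_cancel_left, div_le_div_iff₀ (by positivity) (by linarith)]
    linarith
  have hl0 : (0 : ℝ) ≤ l := Nat.cast_nonneg l
  have h9 := mul_le_mul_of_nonneg_left h7 hl0
  have h10 := mul_le_mul_of_nonneg_left h8 hl0
  have e1 : (l : ℝ) * (2 / H) = 2 * l / H := by ring
  have e2 : (l : ℝ) * -(2 / H) = -(2 * l / H) := by ring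
  rw [e1] at h10
  rw [e2] at h9
  refine ⟨u, hu, abs_le.2 ⟨?_, ?_⟩⟩
  · linarith
  · linarith

/-- **cycles of logarithmic length have a bounded minimum** -/
theorem no_cycle (C : ℝ) : ∃ M : ℕ, ∀ f : ℕ → ℕ, (∀ n, f n = (3 * n + 1) / 2 ∨ f n = n / 2) →
    ∀ l x : ℕ, 1 ≤ l → f^[l] x = x → (∀ i < l, x ≤ f^[i] x) → (l : ℝ) ≤ C * Real.log x → x ≤ M := by
  have hlog : Tendsto (fun n : ℕ => Real.log n) atTop atTop := Real.tendsto_log_atTop.comp tendsto_natCast_atTop_atTop
  -- conditions for large x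
  set D : ℝ := |C| + 1 with hD
  have hD1 : 1 ≤ D := by
    have := abs_nonneg C
    linarith
  have c1 : ∀ᶠ s : ℝ in atTop, 8 * (1 + Real.log (1160 * D) + 2 * Real.log s) ≤ s ^ (1 / 3 : ℝ) - 1 := by
    have hlo : (fun x : ℝ => Real.log x) =o[atTop] (fun x : ℝ => x ^ (1 / 3 : ℝ)) := isLittleO_log_rpow_atTop (by norm_num)
    have h1 := hlo.bound (show (0 : ℝ) < 1 / 32 by norm_num)
    have h2 := (tendsto_rpow_atTop (show (0 : ℝ) < 1 / 3 by norm_num)).eventually_ge_atTop (2 * (8 * (1 + Real.log (1160 * D)) + 1))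
    filter_upwards [h1, h2, eventually_ge_atTop 1] with s h3 h4 h5
    rw [Real.norm_eq_abs, Real.norm_eq_abs, abs_of_nonneg (Real.log_nonneg h5), abs_of_nonneg (by positivity)] at h3
    linarith
  have c2 : ∀ᶠ s : ℝ in atTop, 83520 * (s ^ (1 / 3 : ℝ)) ^ 2 ≤ s / 2 := by
    have h2 := (tendsto_rpow_atTop (show (0 : ℝ) < 1 / 3 by norm_num)).eventually_ge_atTop 167040
    filter_upwards [h2, eventually_gt_atTop 0] with s h3 h5
    have e : s = (s ^ (1 / 3 : ℝ)) ^ 3 := by
      rw [← Real.rpow_natCast, ← Real.rpow_mul h5.le]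
      norm_num
    set t := s ^ (1 / 3 : ℝ) with ht
    rw [e]
    nlinarith [sq_nonneg t]
  have c3 : ∀ᶠ s : ℝ in atTop, 4 * D * s < Real.exp (s / 2) := by
    have h1 : Tendsto (fun s : ℝ => Real.exp s / s ^ 1) atTop atTop := Real.tendsto_exp_div_pow_atTop 1
    have h2 := (h1.comp (tendsto_id.atTop_div_const (show (0 : ℝ) < 2 by norm_num))).eventually_gt_atTop (8 * D)
    filter_upwards [h2, eventually_gt_atTop 0] with s h3 h4
    simp only [Function.comp_apply, id, pow_one] at h3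
    rw [lt_div_iff₀ (by positivity)] at h3
    linarith
  have hev : ∀ᶠ x : ℕ in atTop, 8 * (1 + Real.log (1160 * D) + 2 * Real.log (Real.log x)) ≤ Real.log x ^ (1 / 3 : ℝ) - 1 ∧
      83520 * (Real.log x ^ (1 / 3 : ℝ)) ^ 2 ≤ Real.log x / 2 ∧ 4 * D * Real.log x < Real.exp (Real.log x / 2) ∧ 2 ≤ Real.log x ∧
      10 ≤ x := by
    filter_upwards [hlog.eventually c1, hlog.eventually c2, hlog.eventually c3, hlog.eventually_ge_atTop 2, eventually_ge_atTop 10]
      with x h1 h2 h3 h4 h5
    exact ⟨h1, h2, h3, h4, h5⟩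
  obtain ⟨M, hM⟩ := eventually_atTop.1 hev
  refine ⟨M, fun f hf l x hl hret hmin hlx => ?_⟩
  by_contra hcon
  push Not at hcon
  obtain ⟨g1, g2, g3, g4, g5⟩ := hM x hcon.le
  have hx0 : (0 : ℝ) < x := by exact_mod_cast (by omega : 0 < x)
  set s : ℝ := Real.log x with hs
  have hlD : (l : ℝ) ≤ D * s := by
    refine hlx.trans (mul_le_mul_of_nonneg_right ?_ (by linarith))
    have := le_abs_self C
    linarith
  obtain ⟨u, hu, h1⟩ := closing f hf (H := x - 1) (l := l) (x := x) (by omega) (fun i hi => by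
    have := hmin i hi
    omega) (by omega) hret
  have hH : ((x - 1 : ℕ) : ℝ) = x - 1 := by
    rw [Nat.cast_sub (by omega)]; norm_num
  rw [hH] at h1
  have hx10 : (10 : ℝ) ≤ x := by exact_mod_cast g5
  have hl0 : (1 : ℝ) ≤ l := by exact_mod_cast hl
  have h2 : |(u : ℝ) * Real.log 3 - l * Real.log 2| ≤ 4 * l / x := by
    refine h1.trans ?_
    rw [div_le_div_iff₀ (by linarith) hx0]
    nlinarith
  have hexp : Real.exp (-(s / 2)) ≤ |(u : ℝ) * Real.log 3 - l * Real.log 2| := by
    rcases Nat.eq_zero_or_pos u with h0 | h0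
    · rw [h0, Nat.cast_zero, zero_mul, zero_sub, abs_neg, abs_of_nonneg (by positivity)]
      have e1 : Real.exp (-(s / 2)) ≤ Real.exp (-1) := Real.exp_le_exp.2 (by linarith)
      have e2 : Real.exp (-1) ≤ 1 / 2 := by
        rw [Real.exp_neg, inv_eq_one_div]
        apply one_div_le_one_div_of_le (by norm_num)
        have := Real.add_one_le_exp (1 : ℝ)
        linarith
      have e3 := Real.log_two_gt_d9
      nlinarith
    · set L : ℕ := ⌊s ^ (1 / 3 : ℝ)⌋₊ with hL
      have hLle : (L : ℝ) ≤ s ^ (1 / 3 : ℝ) := Nat.floor_le (by positivity)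
      have hLge : s ^ (1 / 3 : ℝ) - 1 ≤ L := by
        have := Nat.lt_floor_add_one (s ^ (1 / 3 : ℝ))
        linarith
      have hlogD : 0 ≤ Real.log (1160 * D) := Real.log_nonneg (by linarith)
      have hlogs : 0 ≤ Real.log s := Real.log_nonneg (by linarith)
      have hL1 : 1 ≤ L := by
        have : (1 : ℝ) ≤ L := by linarith
        exact_mod_cast this
      have hL1' : (1 : ℝ) ≤ L := by exact_mod_cast hL1
      have hlog3 : Real.log 3 ≤ 2 := by
        have := Real.log_le_sub_one_of_pos (show (0 : ℝ) < 3 by norm_num)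
        linarith
      have hlog2 : Real.log 2 ≤ 2 := by
        have := Real.log_two_lt_d9
        linarith
      have hLs : (L : ℝ) ≤ s := by
        refine hLle.trans ?_
        calc s ^ (1 / 3 : ℝ) ≤ s ^ (1 : ℝ) := Real.rpow_le_rpow_of_exponent_le (by linarith) (by norm_num)
          _ = s := Real.rpow_one s
      have hcond : 8 * (1 + Real.log (290 * (2 : ℕ) * L * (l + u))) ≤ (L : ℝ) := by
        have e1 : (290 * ((2 : ℕ) : ℝ) * L * (l + u)) ≤ 1160 * D * (s * s) := by
          have e2 : (l : ℝ) + u ≤ 2 * (D * s) := by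
            have : (u : ℝ) ≤ l := by exact_mod_cast hu
            linarith
          push_cast
          calc (290 * 2 * (L : ℝ) * (l + u)) ≤ 290 * 2 * s * (2 * (D * s)) := by
                gcongr
            _ = 1160 * D * (s * s) := by ring
        have e3 : Real.log (290 * ((2 : ℕ) : ℝ) * L * (l + u)) ≤ Real.log (1160 * D) + 2 * Real.log s := by
          refine (Real.log_le_log (by positivity) e1).trans (le_of_eq ?_)
          have hsne : s ≠ 0 := by linarith
          rw [Real.log_mul (by positivity) (mul_ne_zero hsne hsne), Real.log_mul hsne hsne]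
          ring
        linarith
      have h3 := Pool.Agent.H440R2.lfl 2 3 l u 2 L Nat.prime_two Nat.prime_three (by norm_num) hl h0 (by norm_num) hL1
        (by exact_mod_cast hlog2) (by exact_mod_cast hlog3) hcond
      have h4 : Real.exp (-(s / 2)) ≤ Real.exp (-(20880 * ((2 : ℕ) : ℝ) ^ 2 * (L : ℝ) ^ 2)) := by
        apply Real.exp_le_exp.2
        have : (L : ℝ) ^ 2 ≤ (s ^ (1 / 3 : ℝ)) ^ 2 := pow_le_pow_left₀ (by positivity) hLle 2
        push_cast
        linarith
      refine h4.trans (h3.le.trans (le_of_eq ?_))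
      push_cast
      rfl
  have h3 := hexp.trans h2
  rw [le_div_iff₀ hx0] at h3
  have h4 : Real.exp (s / 2) ≤ 4 * l := by
    refine le_trans (le_of_eq ?_) h3
    have e1 : (x : ℝ) = Real.exp (s / 2 + s / 2) := by
      rw [add_halves, hs, Real.exp_log hx0]
    rw [e1, ← Real.exp_add]
    congr 1
    ring
  nlinarith

end Pool.Agent.N909.CY
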