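import Mathlib
import Pool.Agent.N909.CY.Det
import Pool.Agent.N909.CM.Fin

set_option autoImplicit false
set_option linter.unusedSectionVars false

/-! # Random Collatz maps have finitely many cycles -/

open MeasureTheory Filter Set
open scoped Topology

namespace Pool.Agent.N909.CY

open Pool.Agent.N909.CM Pool.Agent.R528.RM

/-- long cycles are excluded: finitely many periodic points -/
theorem per_finite (f : ℕ → ℕ) (hf : ∀ n, f n = (3 * n + 1) / 2 ∨ f n = n / 2) (hfin : ∀ n, (orb f n).Finite) {C : ℝ}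
    (hC : ∀ᶠ n : ℕ in atTop, ((orb f n).ncard : ℝ) ≤ C * Real.log n) :
    ({x : ℕ | ∃ l, 1 ≤ l ∧ f^[l] x = x}).Finite := by
  classical
  obtain ⟨M, hM⟩ := no_cycle C
  obtain ⟨n₁, hn₁⟩ := eventually_atTop.1 hC
  have hsub : {x : ℕ | ∃ l, 1 ≤ l ∧ f^[l] x = x} ⊆ ⋃ m ∈ Finset.range (max n₁ M + 1), orb f m := by
    rintro x ⟨l, hl, hx⟩
    have hne : (orb f x).Nonempty := ⟨x, 0, rfl⟩
    set m : ℕ := sInf (orb f x) with hm
    have hmem : m ∈ orb f x := Nat.sInf_mem hne
    obtain ⟨a, ha⟩ := hmem
    have ha : f^[a] x = m := ha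
    have hle : ∀ y ∈ orb f x, m ≤ y := fun y hy => Nat.sInf_le hy
    have hmper : f^[l] m = m := by
      rw [← ha, ← Function.iterate_add_apply, add_comm, Function.iterate_add_apply, hx]
    have hxl : ∀ k : ℕ, f^[l * k] x = x := by
      intro k
      induction k with
      | zero => rfl
      | succ k ih => rw [Nat.mul_succ, Function.iterate_add_apply, hx, ih]
    have hxm : x ∈ orb f m := by
      refine ⟨l * (a + 1) - a, ?_⟩
      show f^[l * (a + 1) - a] m = x
      rw [← ha, ← Function.iterate_add_apply]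
      have e : l * (a + 1) - a + a = l * (a + 1) := by
        have : a ≤ l * (a + 1) := by nlinarith
        omega
      rw [e]
      exact hxl (a + 1)
    have hperpt : m ∈ Function.periodicPts f := ⟨l, hl, hmper⟩
    set l₀ := Function.minimalPeriod f m with hl₀
    have hl₀1 : 1 ≤ l₀ := Function.minimalPeriod_pos_of_mem_periodicPts hperpt
    have hret : f^[l₀] m = m := Function.iterate_minimalPeriod
    have hinj : Set.InjOn (fun i => f^[i] m) (Set.Iio l₀) := Function.iterate_injOn_Iio_minimalPeriod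
    have hcard : l₀ ≤ (orb f m).ncard := by
      have h1 : (((Finset.range l₀).image (fun i => f^[i] m) : Finset ℕ) : Set ℕ) ⊆ orb f m := by
        intro y hy
        simp only [Finset.coe_image, Finset.coe_range, Set.mem_image, Set.mem_Iio] at hy
        obtain ⟨i, _, h⟩ := hy
        exact ⟨i, h⟩
      have h2 := Set.ncard_le_ncard h1 (hfin m)
      have h3 : ((Finset.range l₀).image (fun i => f^[i] m)).card = l₀ := by
        rw [Finset.card_image_of_injOn (by rw [Finset.coe_range]; exact hinj), Finset.card_range]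
      have h4 : (((Finset.range l₀).image (fun i => f^[i] m) : Finset ℕ) : Set ℕ).ncard = l₀ := by
        rw [Set.ncard_coe_finset, h3]
      rw [← h4]
      exact h2
    have hmle : m ≤ max n₁ M := by
      by_contra hcon
      push Not at hcon
      have h1 : n₁ ≤ m := (le_max_left _ _).trans hcon.le
      have h2 := hn₁ m h1
      have h3 := hM f hf l₀ m hl₀1 hret (fun i _ => hle _ ⟨i + a, by
        show f^[i + a] x = f^[i] m
        rw [Function.iterate_add_apply, ha]⟩) (le_trans (by exact_mod_cast hcard) h2)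
      have h4 : M ≤ max n₁ M := le_max_right _ _
      omega
    exact Set.mem_biUnion (x := m) (by simpa using Nat.lt_succ_of_le hmle) hxm
  exact (Set.Finite.biUnion (Finset.finite_toSet _) fun m _ => hfin m).subset hsub

variable {Ω : Type} {m0 : MeasurableSpace Ω} {μ : Measure Ω} [IsProbabilityMeasure μ]
  {ℱ : Filtration ℕ m0} {B : ℕ → Set Ω}

lemma T_or (ω : Ω) (n : ℕ) : T B ω n = (3 * n + 1) / 2 ∨ T B ω n = n / 2 := by
  classical
  unfold T
  by_cases h : ω ∈ B n
  · left; rw [if_pos h]
  · right; rw [if_neg h]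

/-- **random Collatz maps have finitely many cycles and no divergent trajectory** -/
theorem cycles (hB : ∀ n, MeasurableSet[ℱ n] (B n))
    (hd : ∀ᵐ ω ∂μ, Tendsto (fun n : ℕ => dens μ ℱ B n ω) atTop (𝓝 (1 / 2))) :
    ∀ᵐ ω ∂μ, (∀ n, (orb (T B ω) n).Finite) ∧ ({x : ℕ | ∃ l, 1 ≤ l ∧ (T B ω)^[l] x = x}).Finite := by
  have hs := size (μ := μ) (ℱ := ℱ) hB hd (θ := 1 / 2) (γ := (1 + 1 / 2) / (-Real.log (mm (1 / 2))) + 1)
    (by norm_num) (by norm_num) (by linarith)
  filter_upwards [all_finite (μ := μ) (ℱ := ℱ) hB hd, hs] with ω h1 h2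
  exact ⟨h1, per_finite _ (T_or ω) h1 h2⟩

end Pool.Agent.N909.CY
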